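import Pool.Agent.helper66.WD.Spec
import Pool.Agent.helper92.VC.POL
import Pool.Agent.helper88.VC.NIS

set_option autoImplicit false

universe u

namespace Pool.Agent.WD

open MvPolynomial Pool.Agent.helper92.VC

section

variable {n : ℕ} {K : Type u} [Field K]

theorem TOP_cf_add (x : Fin n) (j : ℕ) (p q : MvPolynomial (Fin n) K) :
    cf x j (p + q) = cf x j p + cf x j q := by
  simp [cf]

theorem TOP_cf_smul (x : Fin n) (j : ℕ) (c : K) (p : MvPolynomial (Fin n) K) :
    cf x j (c • p) = c • cf x j p := by
  simp [cf]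

theorem TOP_cf_zero (x : Fin n) (j : ℕ) : cf x j (0 : MvPolynomial (Fin n) K) = 0 := by
  simp [cf]

theorem TOP_eval (x : Fin n) (p : MvPolynomial (Fin n) K) :
    (phi x p).eval (X x) = p := by
  have h : (Polynomial.evalRingHom (X x : MvPolynomial (Fin n) K)).comp
      ((phi x : MvPolynomial (Fin n) K →ₐ[K] Polynomial (MvPolynomial (Fin n) K)) :
        MvPolynomial (Fin n) K →+* Polynomial (MvPolynomial (Fin n) K)) = RingHom.id _ := by
    apply MvPolynomial.ringHom_ext
    · intro r
      simp [phi, Polynomial.algebraMap_apply]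
    · intro y
      by_cases hy : y = x
      · subst hy
        simp [phi]
      · simp [phi, hy]
  exact congrArg (fun f => f p) h

theorem TOP_sum (x : Fin n) (p : MvPolynomial (Fin n) K) :
    ∑ j ∈ Finset.range ((phi x p).natDegree + 1), cf x j p * X x ^ j = p := by
  have h := Polynomial.eval_eq_sum_range (p := phi x p) (X x : MvPolynomial (Fin n) K)
  rw [TOP_eval] at h
  exact h.symm

theorem TOP_supp (x : Fin n) (s : Set (Fin n)) (hx : x ∉ s) (p : MvPolynomial (Fin n) K)
    (hp : p ∈ supported K (insert x s)) : ∀ j, cf x j p ∈ supported K s := by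
  unfold supported at hp
  induction hp using Algebra.adjoin_induction with
  | mem q hq =>
    obtain ⟨y, hy, rfl⟩ := hq
    intro j
    unfold cf phi
    rw [aeval_X]
    by_cases hyx : y = x
    · rw [if_pos hyx, Polynomial.coeff_X]
      split_ifs
      · exact one_mem _
      · exact zero_mem _
    · rw [if_neg hyx, Polynomial.coeff_C]
      split_ifs
      · exact Algebra.subset_adjoin ⟨y, hy.resolve_left hyx, rfl⟩
      · exact zero_mem _
  | algebraMap c =>
    intro j
    unfold cf
    rw [AlgHom.commutes, Polynomial.algebraMap_apply, Polynomial.coeff_C]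
    split_ifs
    · exact Subalgebra.algebraMap_mem _ _
    · exact zero_mem _
  | add a b _ _ ha hb =>
    intro j
    rw [TOP_cf_add]
    exact add_mem (ha j) (hb j)
  | mul a b _ _ ha hb =>
    intro j
    unfold cf
    rw [map_mul, Polynomial.coeff_mul]
    exact sum_mem fun z _ => mul_mem (ha _) (hb _)

theorem TOP_main (w : ℕ) (l : List (Fin n)) : ∀ (S : Set (MvPolynomial (Fin n) K)), l.Nodup →
    (∀ p ∈ S, p ∈ supported K {y | y ∈ l}) → RP w l S →
    ∃ (M : Fin n → Matrix (Fin w) (Fin w) (Polynomial K)) (v : Fin w → K),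
      ∀ p ∈ S, ∃ u : Fin w → K, p = abp l M u v := by
  induction l with
  | nil =>
    intro S _ hsup hS
    obtain ⟨g, hg⟩ := hS
    refine ⟨fun _ => 1, fun t => coeff 0 (g t), fun p hp => ?_⟩
    obtain ⟨c, hc⟩ := (Submodule.mem_span_range_iff_exists_fun K).mp (hg hp)
    refine ⟨c, ?_⟩
    have h1 : p ∈ supported K (∅ : Set (Fin n)) := by
      have := hsup p hp
      have h2 : {y : Fin n | y ∈ ([] : List (Fin n))} = ∅ := by
        ext y
        simp
      rwa [h2] at this
    rw [supported_empty, Algebra.mem_bot] at h1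
    obtain ⟨b, rfl⟩ := h1
    unfold abp
    rw [List.map_nil, List.prod_nil, Matrix.one_mulVec]
    have h3 : b = ∑ t, c t * coeff 0 (g t) := by
      have h4 := congrArg (coeff 0) hc
      rw [coeff_sum] at h4
      simp only [coeff_smul, smul_eq_mul] at h4
      rw [h4]
      simp [MvPolynomial.algebraMap_eq]
    rw [MvPolynomial.algebraMap_eq, h3]
    simp only [dotProduct, map_sum, map_mul]
  | cons x s ih =>
    intro S hnd hsup hS
    obtain ⟨⟨g₀, hg₀⟩, hS'⟩ := hS
    have hxs : x ∉ s := (List.nodup_cons.mp hnd).1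
    have hins : {y : Fin n | y ∈ x :: s} = insert x {y | y ∈ s} := by
      ext y
      simp
    obtain ⟨M', v, hM'⟩ := ih {q | ∃ p ∈ S, ∃ j, q = cf x j p} (List.nodup_cons.mp hnd).2
      (by
        rintro q ⟨p, hp, j, rfl⟩
        have h1 := hsup p hp
        rw [hins] at h1
        exact TOP_supp x _ hxs p h1 j) hS'
    have hspan : ∀ T' ∈ Submodule.span K {q | ∃ p ∈ S, ∃ j, q = cf x j p}, ∃ u : Fin w → K,
        T' = abp s M' u v := by
      intro T' hT'
      induction hT' using Submodule.span_induction with
      | mem T' h => exact hM' T' h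
      | zero => exact ⟨0, by simp [abp, dotProduct]⟩
      | add a b _ _ ha hb =>
        obtain ⟨ua, hua⟩ := ha
        obtain ⟨ub, hub⟩ := hb
        refine ⟨ua + ub, ?_⟩
        rw [hua, hub]
        simp only [abp, dotProduct, Pi.add_apply, map_add, add_mul, Finset.sum_add_distrib]
      | smul c a _ ha =>
        obtain ⟨ua, hua⟩ := ha
        refine ⟨c • ua, ?_⟩
        rw [hua, smul_eq_C_mul]
        simp only [abp, dotProduct, Pi.smul_apply, smul_eq_mul, map_mul, Finset.mul_sum, mul_assoc]
    have hrestr : ∀ (j : ℕ) (T : MvPolynomial (Fin n) K), T ∈ Submodule.span K S →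
        cf x j T ∈ Submodule.span K {q | ∃ p ∈ S, ∃ j, q = cf x j p} := by
      intro j T hT
      induction hT using Submodule.span_induction with
      | mem T h => exact Submodule.subset_span ⟨T, h, j, rfl⟩
      | zero => rw [TOP_cf_zero]; exact Submodule.zero_mem _
      | add a b _ _ ha hb => rw [TOP_cf_add]; exact Submodule.add_mem _ ha hb
      | smul c a _ ha => rw [TOP_cf_smul]; exact Submodule.smul_mem _ c ha
    obtain ⟨g, hgS, hSg⟩ := NIS_basis _ K w S g₀ hg₀
    choose u hu using fun (a : Fin w) (j : ℕ) => hspan _ (hrestr j (g a) (hgS a))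
    refine ⟨Function.update M' x (Matrix.of fun a b =>
      ∑ j ∈ Finset.range ((phi x (g a)).natDegree + 1), Polynomial.monomial j (u a j b)), v,
      fun p hp => ?_⟩
    obtain ⟨c, hc⟩ := (Submodule.mem_span_range_iff_exists_fun K).mp (hSg hp)
    refine ⟨c, ?_⟩
    have hne : ∀ y ∈ s, y ≠ x := fun y hy h => hxs (h ▸ hy)
    have hPe : (s.map fun y => (Function.update M' x (Matrix.of fun a b =>
        ∑ j ∈ Finset.range ((phi x (g a)).natDegree + 1), Polynomial.monomial j (u a j b)) y).map
          fun p => Polynomial.aeval (X y : MvPolynomial (Fin n) K) p)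
        = s.map fun y => (M' y).map fun p => Polynomial.aeval (X y : MvPolynomial (Fin n) K) p := by
      refine List.map_congr_left fun y hy => ?_
      rw [Function.update_of_ne (hne y hy)]
    unfold abp
    rw [List.map_cons, List.prod_cons, hPe, Function.update_self, ← Matrix.mulVec_mulVec, ← hc]
    set V := Matrix.mulVec (s.map fun y => (M' y).map fun p =>
      Polynomial.aeval (X y : MvPolynomial (Fin n) K) p).prod (fun s => C (v s)) with hV
    have hu' : ∀ a j, cf x j (g a) = ∑ b, C (u a j b) * V b := hu
    simp only [dotProduct, smul_eq_C_mul]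
    refine Finset.sum_congr rfl fun a _ => ?_
    congr 1
    simp only [Matrix.mulVec, dotProduct, Matrix.map_apply, Matrix.of_apply, map_sum,
      Polynomial.aeval_monomial, MvPolynomial.algebraMap_eq, Finset.sum_mul]
    rw [Finset.sum_comm]
    refine (TOP_sum x (g a)).symm.trans ?_
    refine Finset.sum_congr rfl fun j _ => ?_
    rw [hu', Finset.sum_mul]
    refine Finset.sum_congr rfl fun b _ => ?_
    ring

end

theorem TOP : TOP_stmt.{u} := by
  intro n K _ w l A hl hRP
  obtain ⟨M, v, h⟩ := TOP_main w l {A} (hl.nodup_iff.2 (List.nodup_finRange n)) (by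
    intro p _
    have h1 : {y : Fin n | y ∈ l} = Set.univ := by
      ext y
      simp [hl.mem_iff]
    rw [h1, supported_univ]
    exact Algebra.mem_top) hRP
  obtain ⟨u, hu⟩ := h A rfl
  rw [hu]
  exact POL_abp_roabp l hl M u v

end Pool.Agent.WD
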